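import Mathlib

namespace Pool.Agent.Results.MP_c5ead3_nt.AlmostPerfect

open Finset

/-- The sum of the positive divisors. -/
def sig (m : ℕ) : ℕ := ∑ d ∈ m.divisors, d

/-- The least deficient `k ≥ 1` with `k n` non-deficient. -/
noncomputable def a (n : ℕ) : ℕ := sInf {k | 1 ≤ k ∧ sig k < 2 * k ∧ 2 * (k * n) ≤ sig (k * n)}

theorem sig_mul_le (m n : ℕ) : sig (m * n) ≤ sig m * sig n := by
  classical
  rw [sig, Nat.divisors_mul, Finset.mul_def, sig, sig, sum_mul_sum, ← sum_product']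
  exact sum_image_le_of_nonneg (fun _ _ => Nat.zero_le _)

theorem sig_coprime {m n : ℕ} (h : m.Coprime n) : sig (m * n) = sig m * sig n := by
  simp only [sig, ← ArithmeticFunction.sigma_one_apply]
  exact ArithmeticFunction.isMultiplicative_sigma.map_mul_of_coprime h

theorem mul_sig_le (k d : ℕ) (hk : k ≠ 0) : k * sig d ≤ sig (k * d) := by
  classical
  rw [sig, mul_sum, ← sum_image (s := d.divisors) (g := fun x => k * x) (f := fun x => x)
    (fun x _ y _ h => Nat.eq_of_mul_eq_mul_left (Nat.pos_of_ne_zero hk) h)]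
  refine sum_le_sum_of_subset fun x hx => ?_
  obtain ⟨y, hy, rfl⟩ := mem_image.1 hx
  rw [Nat.mem_divisors] at hy ⊢
  exact ⟨Nat.mul_dvd_mul_left k hy.1, mul_ne_zero hk hy.2⟩

theorem sig_two_pow (j : ℕ) : sig (2 ^ j) + 1 = 2 * 2 ^ j := by
  rw [sig, ← ArithmeticFunction.sigma_one_apply,
    ArithmeticFunction.sigma_one_apply_prime_pow Nat.prime_two]
  induction j with
  | zero => simp
  | succ j ih => rw [sum_range_succ]; omega

theorem sig_prime {p : ℕ} (hp : p.Prime) : sig p = p + 1 := by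
  rw [sig, hp.sum_divisors]

theorem sig_ge {n : ℕ} (hn : 2 ≤ n) : n + 1 ≤ sig n := by
  have : ({n, 1} : Finset ℕ) ⊆ n.divisors := by
    intro x hx
    simp only [mem_insert, mem_singleton] at hx
    rcases hx with rfl | rfl <;> simp <;> omega
  have h := sum_le_sum_of_subset (f := fun d : ℕ => d) this
  rwa [sum_pair (by omega)] at h

theorem odd_case {n : ℕ} (hn : 2 ≤ n) (ho : Odd n) : 1 ≤ a n ∧ sig (a n) + 1 = 2 * a n := by
  classical
  have hc : ∀ j, sig (2 ^ j * n) = sig (2 ^ j) * sig n := fun j =>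
    sig_coprime (Nat.Coprime.pow_left j (Nat.coprime_two_left.2 ho))
  have hex : ∃ j, 2 * (2 ^ j * n) ≤ sig (2 ^ j * n) := by
    refine ⟨n, ?_⟩
    have h1 := sig_two_pow n
    have h2 := sig_ge hn
    have h3 : n < 2 ^ n := Nat.lt_two_pow_self
    rw [hc]
    nlinarith [Nat.mul_le_mul_left (sig (2 ^ n)) h2]
  have hmem : 2 ^ Nat.find hex ∈ {k | 1 ≤ k ∧ sig k < 2 * k ∧ 2 * (k * n) ≤ sig (k * n)} :=
    ⟨Nat.one_le_two_pow, by have := sig_two_pow (Nat.find hex); omega, Nat.find_spec hex⟩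
  have hle : a n ≤ 2 ^ Nat.find hex := Nat.sInf_le hmem
  obtain ⟨k1, k2, k3⟩ : a n ∈ {k | 1 ≤ k ∧ sig k < 2 * k ∧ 2 * (k * n) ≤ sig (k * n)} :=
    Nat.sInf_mem ⟨_, hmem⟩
  refine ⟨k1, ?_⟩
  generalize a n = k at *
  rcases hj : Nat.find hex with _ | i
  · rw [hj] at hle
    obtain rfl : k = 1 := by omega
    simp [sig]
  · have hf : ¬ 2 * (2 ^ i * n) ≤ sig (2 ^ i * n) := Nat.find_min hex (by omega)
    rw [hj, pow_succ] at hle
    rw [hc] at hf
    have h1 := sig_two_pow i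
    by_contra hne
    have h2 : sig k + 2 ≤ 2 * k := by omega
    have h3 := k3.trans (sig_mul_le k n)
    obtain ⟨k, rfl⟩ : ∃ k', k = k' + 1 := ⟨k - 1, by omega⟩
    have h4 : (k + 1) * n ≤ k * sig n := by nlinarith [Nat.mul_le_mul_right (sig n) (show sig (k + 1) ≤ 2 * k by omega)]
    generalize sig (2 ^ i) = t at *
    have h5 : t * sig n < (t + 1) * n := by rw [h1]; nlinarith
    have h6 : k ≤ t := by omega
    generalize sig n = s at *
    obtain ⟨c, rfl⟩ := Nat.exists_eq_add_of_le h6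
    have h7 : n ≤ s := by nlinarith
    nlinarith [Nat.mul_le_mul_left c h7]

theorem dense (A B : ℝ) (hA : 1 < A) (hAB : A < B) (x : ℕ) (hx : x ≠ 0) :
    ∃ n : ℕ, 2 ≤ n ∧ n.Coprime x ∧ A * n ≤ sig n ∧ (sig n : ℝ) < B * n := by
  classical
  obtain ⟨P0, hP0⟩ := exists_nat_gt (A / (B - A))
  set P := max P0 x with hP
  let N : ℕ → ℕ := fun m => ∏ i ∈ range m, if i.Prime ∧ P < i then i else 1
  let f : ℕ → ℝ := fun i => if i.Prime ∧ P < i then 1 / (i : ℝ) else 0
  have hN0 : ∀ m, 0 < N m := fun m => prod_pos fun i _ => by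
    split_ifs with h
    exacts [h.1.pos, one_pos]
  have hcop : ∀ m y, (∀ i < m, i.Prime → P < i → ¬ i ∣ y) → (N m).Coprime y := fun m y h =>
    Nat.Coprime.prod_left fun i hi => by
      split_ifs with h'
      exacts [(Nat.Prime.coprime_iff_not_dvd h'.1).2 (h i (mem_range.1 hi) h'.1 h'.2),
        Nat.coprime_one_left y]
  have hstep : ∀ m, (sig (N (m + 1)) : ℝ) / N (m + 1) = (sig (N m) : ℝ) / N m * (1 + f m) := by
    intro m
    have e : N (m + 1) = N m * if m.Prime ∧ P < m then m else 1 := prod_range_succ _ _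
    have h0 : (N m : ℝ) ≠ 0 := by exact_mod_cast (hN0 m).ne'
    by_cases h : m.Prime ∧ P < m
    · have hm : (m : ℝ) ≠ 0 := by exact_mod_cast h.1.ne_zero
      rw [e, if_pos h, sig_coprime (hcop m m fun i hi hp _ hd =>
        hi.ne ((Nat.prime_dvd_prime_iff_eq hp h.1).1 hd)), sig_prime h.1]
      simp only [f, if_pos h]
      push_cast
      field_simp
    · rw [e, if_neg h, mul_one]
      simp only [f, if_neg h, add_zero, mul_one]
  have hf0 : ∀ i, 0 ≤ f i := fun i => by simp only [f]; split_ifs <;> positivity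
  have h00 : (sig (N 0) : ℝ) / N 0 = 1 := by simp [N, sig]
  have hlow : ∀ m, 1 + ∑ i ∈ range m, f i ≤ (sig (N m) : ℝ) / N m := by
    intro m
    induction m with
    | zero => rw [h00]; simp
    | succ m ih =>
      rw [hstep, sum_range_succ]
      have := sum_nonneg fun i (_ : i ∈ range m) => hf0 i
      nlinarith [hf0 m, mul_le_mul_of_nonneg_right ih (hf0 m)]
  have hns : ¬ Summable f := by
    intro hs
    apply not_summable_one_div_on_primes
    rw [← summable_nat_add_iff (P + 1)] at hs ⊢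
    refine hs.congr fun i => ?_
    simp only [f, Set.indicator, Set.mem_setOf_eq, show P < i + (P + 1) by omega, and_true]
  obtain ⟨m, hm⟩ := (((not_summable_iff_tendsto_nat_atTop_of_nonneg hf0).1 hns).eventually_ge_atTop A).exists
  have hex : ∃ m, A ≤ (sig (N m) : ℝ) / N m := ⟨m, by linarith [hlow m]⟩
  have hs := Nat.find_spec hex
  rcases hj : Nat.find hex with _ | i
  · rw [hj, h00] at hs; linarith
  have hf : ¬ A ≤ (sig (N i) : ℝ) / N i := Nat.find_min hex (by omega)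
  rw [hj] at hs
  have hpos : (0 : ℝ) < N (i + 1) := by exact_mod_cast hN0 _
  have hup : (sig (N (i + 1)) : ℝ) / N (i + 1) < B := by
    rw [hstep]
    have h1 : A * f i ≤ B - A := by
      simp only [f]
      split_ifs with h
      · have h2 : (P0 : ℝ) < i := by exact_mod_cast (le_max_left P0 x).trans_lt h.2
        have h3 : (0 : ℝ) < i := by exact_mod_cast h.1.pos
        rw [div_lt_iff₀ (by linarith)] at hP0
        rw [mul_one_div, div_le_iff₀ h3]
        nlinarith
      · linarith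
    nlinarith [hf0 i, not_le.1 hf]
  refine ⟨N (i + 1), ?_, hcop _ _ fun p _ _ hp hd => ?_, (le_div_iff₀ hpos).1 hs, (div_lt_iff₀ hpos).1 hup⟩
  · by_contra h
    have h1 : N (i + 1) = 1 := by have := hN0 (i + 1); omega
    rw [h1] at hs
    simp [sig] at hs
    linarith
  · exact absurd (Nat.le_of_dvd (Nat.pos_of_ne_zero hx) hd) (not_le.2 ((le_max_right P0 x).trans_lt hp))

theorem result :
    (∀ n ≥ 2, a n = 1 ∨ a n = 3 ∨ ∃ j, a n = 2 ^ j) ↔
      ∀ k ≥ 1, sig k + 1 = 2 * k → ∃ j, k = 2 ^ j := by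
  refine ⟨fun hQ k hk hap => ?_, fun hAP n hn => ?_⟩
  · by_contra hne
    push Not at hne
    obtain ⟨j, hj⟩ : ∃ j, j = Nat.log 2 k := ⟨_, rfl⟩
    have l1 : 2 ^ j ≤ k := hj ▸ Nat.pow_log_le_self 2 (by omega)
    have l2 : k < 2 ^ (j + 1) := hj ▸ Nat.lt_pow_succ_log_self (by norm_num) k
    have l3 : 2 ^ j < k := lt_of_le_of_ne l1 (hne j).symm
    have l0 : 1 ≤ 2 ^ j := Nat.one_le_two_pow
    obtain ⟨t, ht⟩ : ∃ t, 2 ^ (j + 1) = t + 1 := ⟨2 ^ (j + 1) - 1, by omega⟩
    have ht3 : 3 ≤ t := by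
      have := hne 1
      rw [pow_succ] at ht l2
      omega
    have htk : t < sig k := by rw [pow_succ] at ht; omega
    have t0 : (0 : ℝ) < t := by exact_mod_cast (by omega : 0 < t)
    have t1 : (t : ℝ) < sig k := by exact_mod_cast htk
    obtain ⟨n, hn, hcop, hlo, hup⟩ := dense (((sig k : ℝ) + 1) / sig k) (((t : ℝ) + 1) / t)
      (by rw [lt_div_iff₀ (by linarith)]; linarith)
      (by rw [div_lt_div_iff₀ (by linarith) t0]; nlinarith) (2 * k) (by omega)
    rw [div_mul_eq_mul_div, div_le_iff₀ (by linarith)] at hlo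
    rw [div_mul_eq_mul_div, lt_div_iff₀ t0] at hup
    have hlo' : (sig k + 1) * n ≤ sig n * sig k := by exact_mod_cast hlo
    have hup' : sig n * t < (t + 1) * n := by exact_mod_cast hup
    have hmem : k ∈ {k | 1 ≤ k ∧ sig k < 2 * k ∧ 2 * (k * n) ≤ sig (k * n)} := by
      refine ⟨hk, by omega, ?_⟩
      rw [sig_coprime (Nat.Coprime.coprime_mul_left_right hcop).symm]
      rw [hap] at hlo'
      nlinarith
    have hle : a n ≤ k := Nat.sInf_le hmem
    obtain ⟨k1, k2, k3⟩ : a n ∈ {k | 1 ≤ k ∧ sig k < 2 * k ∧ 2 * (k * n) ≤ sig (k * n)} :=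
      Nat.sInf_mem ⟨_, hmem⟩
    have k4 := k3.trans (sig_mul_le _ _)
    have h7 : n ≤ sig n := by have := sig_ge hn; omega
    have pw : ∀ i, a n ≠ 2 ^ i := by
      intro i hi
      rw [hi] at k4 hle
      have h1 := sig_two_pow i
      have h2 : 2 ^ (i + 1) ≤ 2 ^ (j + 1) := Nat.pow_le_pow_right (by norm_num)
        (by have := (Nat.pow_lt_pow_iff_right (a := 2) (by norm_num)).1 (hle.trans_lt l2); omega)
      rw [pow_succ] at h2
      have h3 : (sig (2 ^ i) + 1) * n ≤ sig (2 ^ i) * sig n := by rw [h1]; nlinarith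
      have h6 : sig (2 ^ i) ≤ t := by omega
      generalize sig (2 ^ i) = u at *
      obtain ⟨c, rfl⟩ := Nat.exists_eq_add_of_le h6
      nlinarith [Nat.mul_le_mul_left c h7]
    rcases hQ n hn with h | h | ⟨i, h⟩
    · exact pw 0 h
    · rw [h, sig_prime Nat.prime_three] at k4
      obtain ⟨c, rfl⟩ := Nat.exists_eq_add_of_le ht3
      nlinarith [Nat.mul_le_mul_left c h7]
    · exact pw i h
  · rcases Nat.even_or_odd n with ⟨m, rfl⟩ | ho
    · have hmem : 3 ∈ {k | 1 ≤ k ∧ sig k < 2 * k ∧ 2 * (k * (m + m)) ≤ sig (k * (m + m))} := by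
        refine ⟨by norm_num, by rw [sig_prime Nat.prime_three]; norm_num, ?_⟩
        have h := mul_sig_le m 6 (by omega)
        have h6 : sig 6 = 12 := by decide
        rw [h6, show m * 6 = 3 * (m + m) by ring] at h
        omega
      have hle : a (m + m) ≤ 3 := Nat.sInf_le hmem
      have h1 : 1 ≤ a (m + m) := (Nat.sInf_mem ⟨_, hmem⟩).1
      have : a (m + m) = 1 ∨ a (m + m) = 3 ∨ a (m + m) = 2 ^ 1 := by omega
      exact this.imp id (Or.imp id fun h => ⟨1, h⟩)
    · obtain ⟨h1, h2⟩ := odd_case hn ho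
      exact Or.inr (Or.inr (hAP _ h1 h2))

end Pool.Agent.Results.MP_c5ead3_nt.AlmostPerfect
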