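import Pool.Agent.Results.MP_c5ead3_nt.AlmostPerfect

namespace Pool.Agent.Results.MP_c5ead3_nt.OddValue

open Pool.Agent.Results.MP_c5ead3_nt.AlmostPerfect

theorem result (n : ℕ) (hn : 2 ≤ n) (ho : Odd n) : sig (a n) + 1 = 2 * a n :=
  (odd_case hn ho).2

end Pool.Agent.Results.MP_c5ead3_nt.OddValue
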